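import Pool.Agent.W912.ND.Defs

/-! Asymptotics of numbers for project ND. -/

set_option autoImplicit false

open Filter Pool.Agent.W912.ND

namespace Pool.Agent.W392.ND

theorem poly_exp (c d e : ℕ) (he : 1 ≤ e) : ∃ n₀ : ℕ, ∀ n ≥ n₀, c * (n + 1) ^ d ≤ 2 ^ (n / e) := by
  have h1 := tendsto_pow_const_div_const_pow_of_one_lt d (r := (2 : ℝ)) one_lt_two
  have h2 : ∀ᶠ u : ℕ in atTop, (u : ℝ) ^ d / 2 ^ u < 1 / (2 * ((c : ℝ) * (e : ℝ) ^ d + 1)) :=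
    h1.eventually_lt_const (by positivity)
  obtain ⟨u₀, hu⟩ := eventually_atTop.mp h2
  refine ⟨e * u₀, fun n hn => ?_⟩
  have hu1 : u₀ ≤ n / e := (Nat.le_div_iff_mul_le he).mpr (by rw [mul_comm]; exact hn)
  generalize hun : n / e = u at *
  have h3 := hu (u + 1) (by omega)
  have h4 : n + 1 ≤ e * (u + 1) := by
    have := Nat.lt_mul_div_succ n (show 0 < e from he)
    rw [hun] at this
    omega
  have h5 : c * (n + 1) ^ d ≤ c * e ^ d * (u + 1) ^ d := by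
    calc c * (n + 1) ^ d ≤ c * (e * (u + 1)) ^ d := by gcongr
      _ = c * e ^ d * (u + 1) ^ d := by rw [mul_pow, mul_assoc]
  have h6 : ((c * e ^ d * (u + 1) ^ d : ℕ) : ℝ) ≤ ((2 ^ u : ℕ) : ℝ) := by
    rw [div_lt_div_iff₀ (by positivity) (by positivity)] at h3
    push_cast at h3 ⊢
    rw [pow_succ (2 : ℝ) u] at h3
    have h7 : (0 : ℝ) ≤ ((u : ℝ) + 1) ^ d := by positivity
    nlinarith
  exact h5.trans (by exact_mod_cast h6)

theorem real_part (n X Y K : ℕ) (hn : n ≤ 2 ^ X) (hK : 3 * (X + Y) ≤ K) :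
    (n : ℝ) * (3 / 4) ^ K ≤ (1 / 2) ^ Y := by
  have h1 : ((3 : ℝ) / 4) ^ K ≤ (1 / 2) ^ (X + Y) := by
    calc ((3 : ℝ) / 4) ^ K ≤ (3 / 4) ^ (3 * (X + Y)) :=
          pow_le_pow_of_le_one (by norm_num) (by norm_num) hK
      _ = ((3 / 4) ^ 3) ^ (X + Y) := by rw [pow_mul]
      _ ≤ (1 / 2) ^ (X + Y) := pow_le_pow_left₀ (by norm_num) (by norm_num) _
  have h2 : (n : ℝ) ≤ 2 ^ X := by exact_mod_cast hn
  calc (n : ℝ) * (3 / 4) ^ K ≤ 2 ^ X * (1 / 2) ^ (X + Y) :=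
        mul_le_mul h2 h1 (by positivity) (by positivity)
    _ = (2 * (1 / 2)) ^ X * (1 / 2) ^ Y := by rw [pow_add, mul_pow]; ring
    _ = (1 / 2) ^ Y := by norm_num

theorem num1 : S_NUM1 := by
  intro c
  obtain ⟨t, ht⟩ : ∃ t, t = 2 * c + 2 := ⟨_, rfl⟩
  obtain ⟨n1, h1⟩ := poly_exp (72 * 2 ^ t) (t + 1) 2 (by norm_num)
  obtain ⟨n2, h2⟩ := poly_exp (2 * t * t + 4) 1 1 le_rfl
  refine ⟨2 * c + 2, max n1 (2 ^ n2), ?_⟩
  intro D hD
  have hDn1 := le_trans (le_max_left _ _) hD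
  have hDn2 := le_trans (le_max_right _ _) hD
  have hDpos : 1 ≤ D := le_trans Nat.one_le_two_pow hDn2
  obtain ⟨u, hu⟩ : ∃ u, u = Nat.log 2 D := ⟨_, rfl⟩
  have hun : n2 ≤ u := by
    rw [hu]
    have := Nat.log_mono_right (b := 2) hDn2
    rwa [Nat.log_pow (by norm_num)] at this
  have hD1 : 2 ^ u ≤ D := by rw [hu]; exact Nat.pow_log_le_self 2 (by omega)
  have hD2 : D < 2 ^ (u + 1) := by rw [hu]; exact Nat.lt_pow_succ_log_self (by norm_num) D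
  have hbig : (2 * t * t + 4) * (u + 1) ≤ D := by
    have := h2 u hun
    rw [pow_one, Nat.div_one] at this
    exact this.trans hD1
  obtain ⟨m, hm⟩ : ∃ m, m = t * (u + 1) := ⟨_, rfl⟩
  have ht2 : 2 ≤ t := by omega
  have hm1 : 1 ≤ m := by rw [hm]; exact Nat.mul_pos (by omega) (by omega)
  have f1 : 2 * t * m ≤ D := by
    refine le_trans ?_ hbig
    rw [hm]
    calc 2 * t * (t * (u + 1)) = (2 * t * t) * (u + 1) := by ring
      _ ≤ (2 * t * t + 4) * (u + 1) := Nat.mul_le_mul_right _ (by omega)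
  have f2 : 2 * m + 2 ≤ D := by
    refine le_trans ?_ hbig
    rw [hm]
    have e1 : 2 * t ≤ 2 * t * t := Nat.le_mul_of_pos_right _ (by omega)
    calc 2 * (t * (u + 1)) + 2 ≤ (2 * t) * (u + 1) + 4 * (u + 1) := by nlinarith
      _ ≤ (2 * t * t) * (u + 1) + 4 * (u + 1) := by gcongr
      _ = (2 * t * t + 4) * (u + 1) := by ring
  have f3 : 4 * t ≤ D := by
    refine le_trans ?_ f1
    have : t ≤ m := by rw [hm]; exact Nat.le_mul_of_pos_right _ (by omega)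
    nlinarith
  have f4 : D ^ t ≤ 2 ^ m := by
    rw [hm, mul_comm t, pow_mul]
    exact Nat.pow_le_pow_left hD2.le _
  have f5 : 2 ^ m ≤ (2 * D) ^ t := by
    rw [hm, mul_comm t, pow_mul]
    refine Nat.pow_le_pow_left ?_ _
    rw [pow_succ]; omega
  obtain ⟨S, hS⟩ : ∃ S, S = t * m * (D + 2 * m + 2) := ⟨_, rfl⟩
  have htm : 1 ≤ t * m := Nat.mul_pos (by omega) hm1
  have hSD : D ≤ S := by
    rw [hS]
    calc D ≤ D + 2 * m + 2 := by omega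
      _ ≤ t * m * (D + 2 * m + 2) := Nat.le_mul_of_pos_left _ htm
  have hSD2 : S ≤ D ^ 2 := by
    rw [hS]
    calc t * m * (D + 2 * m + 2) ≤ t * m * (D + D) := Nat.mul_le_mul_left _ (by omega)
      _ = (2 * t * m) * D := by ring
      _ ≤ D * D := Nat.mul_le_mul_right _ f1
      _ = D ^ 2 := by ring
  obtain ⟨s, hs⟩ : ∃ s, s = S ^ c := ⟨_, rfl⟩
  have hsD : s ≤ D ^ (2 * c) := by
    rw [hs, pow_mul]
    exact Nat.pow_le_pow_left hSD2 _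
  have hkey : 8 * t ^ 2 * (s + 1) ≤ 2 ^ m := by
    have e1 : 1 ≤ D ^ (2 * c) := Nat.one_le_pow _ _ hDpos
    calc 8 * t ^ 2 * (s + 1) ≤ 8 * t ^ 2 * (2 * D ^ (2 * c)) := Nat.mul_le_mul_left _ (by omega)
      _ = (4 * t) ^ 2 * D ^ (2 * c) := by ring
      _ ≤ D ^ 2 * D ^ (2 * c) := Nat.mul_le_mul_right _ (Nat.pow_le_pow_left f3 _)
      _ = D ^ t := by rw [ht, ← pow_add]; congr 1; ring
      _ ≤ 2 ^ m := f4
  have ht2' : 1 ≤ t ^ 2 := Nat.one_le_pow _ _ (by omega)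
  have hk1 : 8 * (s + 1) ≤ 2 ^ m := by
    refine le_trans ?_ hkey
    exact Nat.mul_le_mul_right _ (by omega)
  have hts : t * s ≤ 2 ^ m := by
    refine le_trans ?_ hkey
    have e1 : t ≤ 8 * t ^ 2 := by nlinarith
    exact Nat.mul_le_mul e1 (Nat.le_succ s)
  obtain ⟨X, hX⟩ : ∃ X, X = (m + 1) * 2 ^ m := ⟨_, rfl⟩
  have hX72 : 72 * X ≤ 2 ^ (D / 2) := by
    refine le_trans ?_ (h1 D hDn1)
    have e1 : X ≤ 2 ^ t * (D + 1) ^ (t + 1) := by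
      calc X = (m + 1) * 2 ^ m := hX
        _ ≤ (D + 1) * (2 * D) ^ t := Nat.mul_le_mul (by omega) f5
        _ ≤ (D + 1) * (2 * (D + 1)) ^ t :=
          Nat.mul_le_mul_left _ (Nat.pow_le_pow_left (by omega) _)
        _ = 2 ^ t * (D + 1) ^ (t + 1) := by rw [mul_pow, pow_succ (D + 1) t]; ring
    calc 72 * X ≤ 72 * (2 ^ t * (D + 1) ^ (t + 1)) := Nat.mul_le_mul_left _ e1
      _ = 72 * 2 ^ t * (D + 1) ^ (t + 1) := by ring
  obtain ⟨Q, hQ⟩ : ∃ Q, Q = 8 * (t * s + m * 2 ^ m) := ⟨_, rfl⟩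
  have hQX : Q ≤ 8 * X := by
    rw [hQ, hX]
    have : t * s + m * 2 ^ m ≤ (m + 1) * 2 ^ m := by
      calc t * s + m * 2 ^ m ≤ 2 ^ m + m * 2 ^ m := Nat.add_le_add_right hts _
        _ = (m + 1) * 2 ^ m := by ring
    omega
  have hQpos : 0 < Q := by
    rw [hQ]
    have : 0 < m * 2 ^ m := Nat.mul_pos hm1 (by positivity)
    omega
  obtain ⟨K, hK⟩ : ∃ K, K = 2 ^ D / Q := ⟨_, rfl⟩
  have hKQ : 8 * K * (t * s + m * 2 ^ m) ≤ 2 ^ D := by
    have e1 : 8 * K * (t * s + m * 2 ^ m) = K * Q := by rw [hQ]; ring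
    rw [e1, hK]
    exact Nat.div_mul_le_self _ _
  have hK3 : 3 * (X + 2 ^ (D / 2 + 1)) ≤ K := by
    rw [hK, Nat.le_div_iff_mul_le hQpos]
    have e1 : X + 2 ^ (D / 2 + 1) ≤ 3 * 2 ^ (D / 2) := by
      rw [pow_succ]; omega
    calc 3 * (X + 2 ^ (D / 2 + 1)) * Q ≤ 3 * (3 * 2 ^ (D / 2)) * (8 * X) := by gcongr
      _ = (72 * X) * 2 ^ (D / 2) := by ring
      _ ≤ 2 ^ (D / 2) * 2 ^ (D / 2) := Nat.mul_le_mul_right _ hX72
      _ = 2 ^ (D / 2 + D / 2) := by rw [← pow_add]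
      _ ≤ 2 ^ D := Nat.pow_le_pow_right (by norm_num) (by omega)
  have hnC : Pool.Agent.H622R2.Ckt.nC D s ≤ 2 ^ X := by
    unfold Pool.Agent.H622R2.Ckt.nC
    have e1 : D ≤ 2 ^ m := le_trans (Nat.le_self_pow (by omega) D) f4
    have e2 : D + s + 8 ≤ 2 ^ (m + 1) := by
      rw [pow_succ]; omega
    have e3 : 4 * s + 4 ≤ 2 ^ m := by omega
    calc (D + s + 8) ^ (4 * s + 4) ≤ (2 ^ (m + 1)) ^ (4 * s + 4) := Nat.pow_le_pow_left e2 _
      _ ≤ (2 ^ (m + 1)) ^ (2 ^ m) := Nat.pow_le_pow_right (by positivity) e3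
      _ = 2 ^ X := by rw [← pow_mul, hX]
  have hlogS : Nat.log 2 S < 2 * u + 2 := by
    refine Nat.log_lt_of_lt_pow (by omega) ?_
    calc S ≤ D ^ 2 := hSD2
      _ < (2 ^ (u + 1)) ^ 2 := Nat.pow_lt_pow_left hD2 (by norm_num)
      _ = 2 ^ (2 * u + 2) := by rw [← pow_mul]; congr 1; ring
  have hclog : u + 1 ≤ Nat.clog 2 (D + 1) := by
    have e1 : D + 1 ≤ 2 ^ Nat.clog 2 (D + 1) := Nat.le_pow_clog (by norm_num) _
    have e2 : 2 ^ u < 2 ^ Nat.clog 2 (D + 1) := by omega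
    exact (Nat.pow_lt_pow_iff_right (by norm_num)).mp e2
  refine ⟨m, t, K, S, s, c * Nat.log 2 S, hm1, by omega, hS, by omega, hSD, hs, rfl, ?_, ?_, ?_, ?_,
    hkey, hKQ, real_part _ X _ K hnC hK3⟩
  · have e1 : D ^ 2 ≤ D ^ (2 * c + 2) := Nat.pow_le_pow_right hDpos (by omega)
    refine le_trans ?_ e1
    have h2D : 2 ≤ D := by omega
    calc D + 2 * m + 1 ≤ 2 * D := by omega
      _ ≤ D * D := Nat.mul_le_mul_right _ h2D
      _ = D ^ 2 := by ring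
  · exact hSD2.trans (Nat.pow_le_pow_right hDpos (by omega))
  · exact hsD.trans (Nat.pow_le_pow_right hDpos (by omega))
  · rw [Nat.div_lt_iff_lt_mul (by omega)]
    calc c * Nat.log 2 S ≤ c * (2 * u + 2) := Nat.mul_le_mul_left _ hlogS.le
      _ < t * (u + 1) := by
        have e1 : (2 * c + 2) * (u + 1) = c * (2 * u + 2) + (2 * u + 2) := by ring
        rw [ht, e1]; omega
      _ ≤ t * Nat.clog 2 (D + 1) := Nat.mul_le_mul_left _ hclog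

end Pool.Agent.W392.ND
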